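import Pool.Agent.U17.Eig.Enc
import Pool.Agent.Y815.GI.Red

/-!
# The reduction: computation
-/

set_option autoImplicit false
set_option linter.unusedSectionVars false

namespace Pool.Agent.U17.Eig

open Pool.Agent.NPC Pool.Agent.NPC.R671
open Pool.Agent.Y815.GI (GraphIso ent valid valid_iff length_adjMatrix ent_adjMatrix bits_mem)

/-! ### The computation -/

/-- labels of points -/
abbrev Lp := ℕ × ℕ

/-- labels of vertices -/
abbrev Lb := ℕ × Lp × Lp × ℕ

/-- the list of the points -/
def pts (M : List (List Bool)) : List Lp :=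
  (List.range M.length).map (fun i => ((0, i) : Lp)) ++ [(1, 0), (1, 1), (1, 2)]

/-- the list of the markers -/
def mks (M : List (List Bool)) : List (ℕ × ℕ) :=
  (List.range M.length ×ˢ List.range M.length).filter
    (fun z => decide (z.1 = z.2) || ent M z.1 z.2)

/-- incidence of markers -/
def iB (z : ℕ × ℕ) (p : Lp) : Bool :=
  decide (p.1 = 1) || (!(decide (z.1 = z.2)) && (decide (p.2 = z.1) || decide (p.2 = z.2)))

/-- the number of markers through two points -/
def cntB (M : List (List Bool)) (p q : Lp) : ℕ := ((mks M).filter (fun z => iB z p && iB z q)).length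

/-- the multiplicity of a pair -/
def wtB (M : List (List Bool)) (p q : Lp) : ℕ :=
  if p = q then 0 else kX M.length - cntB M p q

/-- markers and pairs -/
def preL (M : List (List Bool)) : List Lb :=
  (mks M ×ˢ List.range 2).map (fun q => ((1, q.1, (0, 0), q.2) : Lb)) ++
  (((pts M ×ˢ pts M) ×ˢ List.range (kX M.length)).filter
    (fun q => decide (q.2 < wtB M q.1.1 q.1.2))).map (fun q => ((2, q.1.1, q.1.2, q.2) : Lb))

/-- incidence -/
def incB (b : Lb) (p : Lp) : Bool :=
  (decide (b.1 = 1) && iB b.2.1 p) ||
  ((decide (b.1 = 2) && (decide (p = b.2.1) || decide (p = b.2.2.1))) ||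
  (decide (b.1 = 3) && decide (p = b.2.1)))

/-- the number of markers and pairs through a point -/
def dgB (M : List (List Bool)) (p : Lp) : ℕ := ((preL M).filter (fun b => incB b p)).length

/-- the number of blocks through a point -/
def k4 (n : ℕ) : ℕ := 4 * (kX n * kX n)

/-- the condition for single points -/
def okB (M : List (List Bool)) (q : Lp × ℕ) : Bool := decide (q.2 < k4 M.length - dgB M q.1)

/-- single points -/
def sgL (M : List (List Bool)) : List Lb :=
  ((pts M ×ˢ List.range (k4 M.length)).filter
    (fun q => okB M q)).map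
      (fun q => ((3, q.1, (0, 0), q.2) : Lb))

/-- the list of the vertices -/
def verts (M : List (List Bool)) : List Lb :=
  (pts M).map (fun x => ((0, x, (0, 0), 0) : Lb)) ++ (preL M ++ sgL M)

/-- half of the adjacency relation -/
def relB (a b : Lb) : Bool :=
  decide (a.1 = 0) && ((decide (b.1 = 0) && !(decide (a.2.1 = b.2.1))) || incB b a.2.1)

/-- adjacency -/
def adB (a b : Lb) : Bool := relB a b || relB b a

/-- the output matrix -/
def out (M : List (List Bool)) : List (List Bool) :=
  (verts M).map (fun u => (verts M).map (fun w => adB u w))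

theorem adB_symm (a b : Lb) : adB a b = adB b a := Bool.or_comm _ _

theorem adB_irrefl (a : Lb) : adB a a = false := by
  have h : relB a a = false := by
    rw [Bool.eq_false_iff]
    intro h
    simp only [relB, incB, Bool.or_eq_true, Bool.and_eq_true, decide_eq_true_eq,
      Bool.not_eq_true', decide_eq_false_iff_not] at h
    obtain ⟨h1, h2 | h2 | h2 | h2⟩ := h
    · exact h2.2 trivial
    · omega
    · omega
    · omega
  rw [adB, h]
  rfl

/-! ### Polynomial time -/

section

variable {α : Type} [TEnc α]

@[fun_prop]
theorem poly_kX {f : α → ℕ} (hf : Poly f) : Poly (fun a => kX (f a)) := by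
  unfold kX
  fun_prop

theorem uPoly_kX {f : α → List (List Bool)} (hf : Poly f) :
    UPoly (fun a => kX (f a).length) :=
  ((UPoly.length hf).add (UPoly.const 3)).mul ((UPoly.length hf).add (UPoly.const 3))

@[fun_prop]
theorem poly_range_kX {f : α → List (List Bool)} (hf : Poly f) :
    Poly (fun a => List.range (kX (f a).length)) := (uPoly_kX hf).range

@[fun_prop]
theorem poly_k4 {f : α → ℕ} (hf : Poly f) : Poly (fun a => k4 (f a)) := by
  unfold k4
  fun_prop

@[fun_prop]
theorem poly_range_kk {f : α → List (List Bool)} (hf : Poly f) :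
    Poly (fun a => List.range (k4 (f a).length)) :=
  ((UPoly.const 4).mul ((uPoly_kX hf).mul (uPoly_kX hf))).range

@[fun_prop]
theorem poly_range_len {f : α → List (List Bool)} (hf : Poly f) :
    Poly (fun a => List.range (f a).length) := Poly.range_length hf

attribute [local irreducible] kX k4

@[fun_prop]
theorem poly_pts {f : α → List (List Bool)} (hf : Poly f) : Poly (fun a => pts (f a)) := by
  unfold pts
  fun_prop

@[fun_prop]
theorem poly_mks {f : α → List (List Bool)} (hf : Poly f) : Poly (fun a => mks (f a)) := by
  unfold mks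
  fun_prop

@[fun_prop]
theorem poly_iB {f : α → ℕ × ℕ} {x : α → Lp} (hf : Poly f) (hx : Poly x) :
    Poly (fun a => iB (f a) (x a)) := by
  unfold iB
  fun_prop

@[fun_prop]
theorem poly_cntB {f : α → List (List Bool)} {x y : α → Lp} (hf : Poly f) (hx : Poly x)
    (hy : Poly y) : Poly (fun a => cntB (f a) (x a) (y a)) := by
  unfold cntB
  fun_prop

@[fun_prop]
theorem poly_wtB {f : α → List (List Bool)} {x y : α → Lp} (hf : Poly f) (hx : Poly x)
    (hy : Poly y) : Poly (fun a => wtB (f a) (x a) (y a)) := by
  unfold wtB
  fun_prop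

@[fun_prop]
theorem poly_preL {f : α → List (List Bool)} (hf : Poly f) : Poly (fun a => preL (f a)) := by
  unfold preL
  fun_prop

@[fun_prop]
theorem poly_incB {f : α → Lb} {x : α → Lp} (hf : Poly f) (hx : Poly x) :
    Poly (fun a => incB (f a) (x a)) := by
  unfold incB
  fun_prop

@[fun_prop]
theorem poly_dgB {f : α → List (List Bool)} {x : α → Lp} (hf : Poly f) (hx : Poly x) :
    Poly (fun a => dgB (f a) (x a)) := by
  unfold dgB
  fun_prop

@[fun_prop]
theorem poly_okB {f : α → List (List Bool)} {q : α → Lp × ℕ} (hf : Poly f) (hq : Poly q) :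
    Poly (fun a => okB (f a) (q a)) := by
  unfold okB
  exact Poly.decide_lt (Poly.snd hq) (Poly.sub (poly_k4 (Poly.length hf))
    (poly_dgB hf (Poly.fst hq)))

@[fun_prop]
theorem poly_sgL {f : α → List (List Bool)} (hf : Poly f) : Poly (fun a => sgL (f a)) := by
  unfold sgL
  fun_prop

@[fun_prop]
theorem poly_verts {f : α → List (List Bool)} (hf : Poly f) : Poly (fun a => verts (f a)) := by
  unfold verts
  fun_prop

@[fun_prop]
theorem poly_relB {a b : α → Lb} (ha : Poly a)
    (hb : Poly b) : Poly (fun x => relB (a x) (b x)) := by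
  unfold relB
  fun_prop

@[fun_prop]
theorem poly_adB {a b : α → Lb} (ha : Poly a)
    (hb : Poly b) : Poly (fun x => adB (a x) (b x)) := by
  unfold adB
  fun_prop

@[fun_prop]
theorem poly_out {f : α → List (List Bool)} (hf : Poly f) : Poly (fun a => out (f a)) := by
  unfold out
  fun_prop

end

end Pool.Agent.U17.Eig
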