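import Pool.Agent.U17.Eig.Spec

/-!
# Completion of a family of sets to a design with `r = l ^ 2`

Given a family of subsets (markers) of a finite set `P`, we take every marker twice, and add sets
with two and with one elements, such that every point is on `(2 k) ^ 2` blocks, and any two points
are on `2 k` blocks.
-/

set_option autoImplicit false
set_option linter.unusedSectionVars false

namespace Pool.Agent.U17.Eig

open Finset

section

variable {P M : Type*} [Fintype P] [Fintype M] [DecidableEq P] [DecidableEq M]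
  (inc : M → P → Prop) [∀ m p, Decidable (inc m p)] (k : ℕ)

/-- the number of markers through two points -/
def cnt (p q : P) : ℕ := (univ.filter (fun m => inc m p ∧ inc m q)).card

/-- how many times the pair is used, in each of the two orders -/
def wt (p q : P) : ℕ := if p = q then 0 else k - cnt inc p q

/-- markers and pairs -/
abbrev Pre : Type _ := (M × Bool) ⊕ (Σ z : P × P, Fin (wt inc k z.1 z.2))

/-- incidence of markers and pairs -/
def preInc : Pre inc k → P → Prop
  | .inl m, p => inc m.1 p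
  | .inr z, p => p = z.1.1 ∨ p = z.1.2

instance : ∀ (b : Pre inc k) (p : P), Decidable (preInc inc k b p)
  | .inl m, p => inferInstanceAs (Decidable (inc m.1 p))
  | .inr z, p => inferInstanceAs (Decidable (p = z.1.1 ∨ p = z.1.2))

/-- the number of markers and pairs through a point -/
def dg (p : P) : ℕ := (univ.filter (fun b => preInc inc k b p)).card

/-- the blocks -/
abbrev Blk : Type _ := Pre inc k ⊕ (Σ p : P, Fin (4 * k ^ 2 - dg inc k p))

/-- incidence -/
def bInc : Blk inc k → P → Prop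
  | .inl b, p => preInc inc k b p
  | .inr z, p => p = z.1

instance : ∀ (b : Blk inc k) (p : P), Decidable (bInc inc k b p)
  | .inl b, p => inferInstanceAs (Decidable (preInc inc k b p))
  | .inr z, p => inferInstanceAs (Decidable (p = z.1))

variable {inc k}

theorem cnt_le (p q : P) : cnt inc p q ≤ Fintype.card M := Finset.card_le_univ _

theorem cnt_comm (p q : P) : cnt inc p q = cnt inc q p := by
  unfold cnt
  congr 1
  ext m
  simp [and_comm]

theorem wt_comm (p q : P) : wt inc k p q = wt inc k q p := by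
  unfold wt
  rw [cnt_comm]
  simp only [eq_comm]

theorem card_filter_sum {A C : Type*} [Fintype A] [Fintype C] (f : A ⊕ C → Prop)
    [DecidablePred f] : (univ.filter f).card =
      (univ.filter (fun a => f (.inl a))).card + (univ.filter (fun c => f (.inr c))).card := by
  simp only [Finset.card_filter, Fintype.sum_sum_type]

theorem card_filter_sigma {A : Type*} [Fintype A] (w : A → ℕ) (f : A → Prop)
    [DecidablePred f] : (univ.filter (fun z : Σ a : A, Fin (w a) => f z.1)).card =
      ∑ a, if f a then w a else 0 := by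
  rw [Finset.card_filter, Fintype.sum_sigma]
  refine Finset.sum_congr rfl fun a _ => ?_
  by_cases h : f a <;> simp [h]

theorem wt_le (p q : P) : wt inc k p q ≤ k := by
  unfold wt
  split_ifs <;> omega

theorem dg_le (h1 : Fintype.card M ≤ k) (h2 : Fintype.card P ^ 2 ≤ k) (p : P) :
    dg inc k p ≤ 2 * k + k ^ 2 := by
  have h3 : dg inc k p ≤ Fintype.card (Pre inc k) := Finset.card_le_univ _
  refine h3.trans ?_
  rw [Fintype.card_sum, Fintype.card_prod, Fintype.card_sigma, Fintype.card_bool]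
  simp only [Fintype.card_fin]
  have h4 : ∑ z : P × P, wt inc k z.1 z.2 ≤ ∑ _z : P × P, k :=
    Finset.sum_le_sum fun z _ => wt_le z.1 z.2
  rw [Finset.sum_const, Finset.card_univ, Fintype.card_prod, smul_eq_mul] at h4
  have h5 : Fintype.card P * Fintype.card P * k ≤ k * k :=
    Nat.mul_le_mul_right _ (by rw [← sq]; exact h2)
  rw [sq]
  omega

theorem dg_le' (h1 : Fintype.card M ≤ k) (h2 : Fintype.card P ^ 2 ≤ k) (hk : 2 ≤ k) (p : P) :
    dg inc k p + 2 ≤ 4 * k ^ 2 := by
  have := dg_le h1 h2 p (inc := inc)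
  nlinarith

theorem two_points (h1 : Fintype.card M ≤ k) (p q : P) (hpq : p ≠ q) :
    (univ.filter (fun b => bInc inc k b p ∧ bInc inc k b q)).card = 2 * k := by
  rw [card_filter_sum, card_filter_sum]
  have e1 : (univ.filter (fun c : Σ p : P, Fin (4 * k ^ 2 - dg inc k p) =>
      bInc inc k (.inr c) p ∧ bInc inc k (.inr c) q)).card = 0 := by
    rw [Finset.card_eq_zero, Finset.filter_eq_empty_iff]
    intro c _ h
    exact hpq (h.1.trans h.2.symm)
  have e2 : (univ.filter (fun a : M × Bool =>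
      bInc inc k (.inl (.inl a)) p ∧ bInc inc k (.inl (.inl a)) q)).card = 2 * cnt inc p q := by
    have : (univ.filter (fun a : M × Bool =>
      bInc inc k (.inl (.inl a)) p ∧ bInc inc k (.inl (.inl a)) q)) =
      (univ.filter (fun m => inc m p ∧ inc m q)) ×ˢ (univ : Finset Bool) := by
      ext ⟨m, b⟩
      simp only [Finset.mem_filter, Finset.mem_univ, true_and, Finset.mem_product, and_true]
      exact Iff.rfl
    rw [this, Finset.card_product, Finset.card_univ, Fintype.card_bool, cnt, mul_comm]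
  have e3 : (univ.filter (fun c : Σ z : P × P, Fin (wt inc k z.1 z.2) =>
      bInc inc k (.inl (.inr c)) p ∧ bInc inc k (.inl (.inr c)) q)).card =
      wt inc k p q + wt inc k q p := by
    have h3 := card_filter_sigma (fun z : P × P => wt inc k z.1 z.2)
      (fun z => (p = z.1 ∨ p = z.2) ∧ (q = z.1 ∨ q = z.2))
    refine (Eq.trans ?_ h3).trans ?_
    · rfl
    · have h4 : ∀ z : P × P, (if (p = z.1 ∨ p = z.2) ∧ (q = z.1 ∨ q = z.2) then
          wt inc k z.1 z.2 else 0) = (if z = (p, q) then wt inc k p q else 0) +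
            (if z = (q, p) then wt inc k q p else 0) := by
        rintro ⟨x, y⟩
        simp only [Prod.mk.injEq]
        grind
      simp_rw [h4]
      rw [Finset.sum_add_distrib]
      simp
  rw [e1, e2, e3, wt_comm q p]
  have h5 : wt inc k p q = k - cnt inc p q := if_neg hpq
  have h6 := cnt_le p q (inc := inc)
  omega

theorem one_point (h1 : Fintype.card M ≤ k) (h2 : Fintype.card P ^ 2 ≤ k) (hk : 2 ≤ k) (p : P) :
    (univ.filter (fun b => bInc inc k b p)).card = (2 * k) ^ 2 := by
  rw [card_filter_sum]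
  have e1 : (univ.filter (fun c : Σ p : P, Fin (4 * k ^ 2 - dg inc k p) =>
      bInc inc k (.inr c) p)).card = 4 * k ^ 2 - dg inc k p := by
    have h3 := card_filter_sigma (fun q : P => 4 * k ^ 2 - dg inc k q) (fun q => p = q)
    refine (Eq.trans ?_ h3).trans ?_
    · rfl
    · simp
  have e2 : (univ.filter (fun c : Pre inc k => bInc inc k (.inl c) p)).card = dg inc k p := rfl
  have := dg_le' h1 h2 hk p (inc := inc)
  rw [e1, e2, mul_pow]
  omega

theorem design (h1 : Fintype.card M ≤ k) (h2 : Fintype.card P ^ 2 ≤ k) (hk : 2 ≤ k) :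
    Design (bInc inc k) (2 * k) :=
  ⟨one_point h1 h2 hk, two_points h1⟩

/-- the singletons -/
def sing (h1 : Fintype.card M ≤ k) (h2 : Fintype.card P ^ 2 ≤ k) (hk : 2 ≤ k) (p : P)
    (t : Fin 2) : Blk inc k :=
  .inr ⟨p, ⟨t, by have := dg_le' h1 h2 hk p (inc := inc); have := t.2; omega⟩⟩

theorem sing_inc (h1 : Fintype.card M ≤ k) (h2 : Fintype.card P ^ 2 ≤ k) (hk : 2 ≤ k) (p q : P)
    (t : Fin 2) : bInc inc k (sing h1 h2 hk p t) q ↔ q = p := Iff.rfl

theorem blk_nonempty (h : ∀ m, ∃ p, inc m p) (b : Blk inc k) : ∃ p, bInc inc k b p := by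
  rcases b with (m | z) | z
  · exact h m.1
  · exact ⟨z.1.1, Or.inl rfl⟩
  · exact ⟨z.1, rfl⟩

/-- The graph is a connected split graph with four distinct eigenvalues, which are integers. -/
theorem four (h1 : Fintype.card M ≤ k) (h2 : Fintype.card P ^ 2 ≤ k) (hk : 2 ≤ k)
    (h : ∀ m, ∃ p, inc m p) (hP : 2 ≤ Fintype.card P) :
    (sg (bInc inc k)).Connected ∧ IsSplit (sg (bInc inc k)) ∧
      eigs (sg (bInc inc k)) =
        {0, -((2 * k : ℕ) : ℝ), ((2 * k : ℕ) : ℝ) - 1, (Fintype.card P : ℝ) - 1 + (2 * k : ℕ)} := by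
  have hne : Nonempty P := Fintype.card_pos_iff.1 (by omega)
  refine ⟨sg_connected _ (blk_nonempty h), sg_split _, ?_⟩
  obtain ⟨p⟩ := hne
  refine eigs_sg (design h1 h2 hk) (by omega) hP ⟨sing h1 h2 hk p 0, sing h1 h2 hk p 1, ?_, ?_⟩
  · intro h3
    simp [sing] at h3
  · intro q
    exact Iff.rfl

end

/-! ### Isomorphisms -/

section

variable {P M P' M' : Type*} [Fintype P] [Fintype M] [DecidableEq P] [DecidableEq M]
  [Fintype P'] [Fintype M'] [DecidableEq P'] [DecidableEq M']
  {inc : M → P → Prop} [∀ m p, Decidable (inc m p)]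
  {inc' : M' → P' → Prop} [∀ m p, Decidable (inc' m p)] {k : ℕ}

theorem cnt_congr (π : P ≃ P') (μ : M ≃ M') (h : ∀ m p, inc' (μ m) (π p) ↔ inc m p) (p q : P) :
    cnt inc' (π p) (π q) = cnt inc p q := by
  unfold cnt
  symm
  refine Finset.card_equiv μ fun m => ?_
  simp [h]

theorem wt_congr (π : P ≃ P') (μ : M ≃ M') (h : ∀ m p, inc' (μ m) (π p) ↔ inc m p) (p q : P) :
    wt inc' k (π p) (π q) = wt inc k p q := by
  unfold wt
  rw [cnt_congr π μ h]
  simp

/-- the bijection of the markers and pairs -/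
def preEquiv (π : P ≃ P') (μ : M ≃ M') (h : ∀ m p, inc' (μ m) (π p) ↔ inc m p) :
    Pre inc k ≃ Pre inc' k :=
  Equiv.sumCongr (Equiv.prodCongr μ (Equiv.refl _))
    (Equiv.sigmaCongr (Equiv.prodCongr π π) fun z => finCongr (wt_congr π μ h z.1 z.2).symm)

theorem preEquiv_inc (π : P ≃ P') (μ : M ≃ M') (h : ∀ m p, inc' (μ m) (π p) ↔ inc m p)
    (b : Pre inc k) (p : P) : preInc inc' k (preEquiv π μ h b) (π p) ↔ preInc inc k b p := by
  rcases b with m | z
  · exact h m.1 p
  · show (π p = π z.1.1 ∨ π p = π z.1.2) ↔ (p = z.1.1 ∨ p = z.1.2)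
    simp

theorem dg_congr (π : P ≃ P') (μ : M ≃ M') (h : ∀ m p, inc' (μ m) (π p) ↔ inc m p) (p : P) :
    dg inc' k (π p) = dg inc k p := by
  unfold dg
  symm
  refine Finset.card_equiv (preEquiv π μ h) fun m => ?_
  simp [preEquiv_inc]

/-- the bijection of the blocks -/
def blkEquiv (π : P ≃ P') (μ : M ≃ M') (h : ∀ m p, inc' (μ m) (π p) ↔ inc m p) :
    Blk inc k ≃ Blk inc' k :=
  Equiv.sumCongr (preEquiv π μ h)
    (Equiv.sigmaCongr π fun p => finCongr (by rw [dg_congr π μ h p]))

theorem blkEquiv_inc (π : P ≃ P') (μ : M ≃ M') (h : ∀ m p, inc' (μ m) (π p) ↔ inc m p)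
    (b : Blk inc k) (p : P) : bInc inc' k (blkEquiv π μ h b) (π p) ↔ bInc inc k b p := by
  rcases b with m | z
  · exact preEquiv_inc π μ h m p
  · show (π p = π z.1) ↔ (p = z.1)
    simp

theorem sg_iso (π : P ≃ P') (μ : M ≃ M') (h : ∀ m p, inc' (μ m) (π p) ↔ inc m p) :
    Nonempty (sg (bInc inc k) ≃g sg (bInc inc' k)) := by
  refine ⟨⟨Equiv.sumCongr π (blkEquiv π μ h), ?_⟩⟩
  rintro (p | b) (q | c)
  · show π p ≠ π q ↔ p ≠ q
    simp
  · exact blkEquiv_inc π μ h c p
  · exact blkEquiv_inc π μ h b q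
  · exact Iff.rfl

end

/-! ### Recovering the incidence structure -/

section

variable {P B P' B' : Type*} {inc : B → P → Prop} {inc' : B' → P' → Prop}

/-- adjacent to a vertex of degree one -/
def HasPendant {V : Type*} (G : SimpleGraph V) (v : V) : Prop :=
  ∃ w, G.Adj v w ∧ ∀ u, G.Adj w u → u = v

theorem HasPendant.map {V W : Type*} {G : SimpleGraph V} {H : SimpleGraph W} (φ : G ≃g H) {v : V}
    (h : HasPendant G v) : HasPendant H (φ v) := by
  obtain ⟨w, h1, h2⟩ := h
  refine ⟨φ w, φ.map_adj_iff.2 h1, fun u hu => ?_⟩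
  obtain ⟨u, rfl⟩ := φ.surjective u
  rw [h2 u (φ.map_adj_iff.1 hu)]

/-- Every point is on a block with one point, and there are several points. -/
def Pend (inc : B → P → Prop) : Prop :=
  (∀ p, ∃ b, ∀ q, inc b q ↔ q = p) ∧ ∀ p : P, ∃ q : P, q ≠ p

theorem pend_iff (h : Pend inc) (v : P ⊕ B) : HasPendant (sg inc) v ↔ ∃ p, v = .inl p := by
  constructor
  · rintro ⟨w, h1, h2⟩
    rcases v with p | b
    · exact ⟨p, rfl⟩
    · exfalso
      rcases w with p | c
      · obtain ⟨q, hq⟩ := h.2 p
        have := h2 (.inl q) (by simpa using hq.symm)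
        exact absurd this (by simp)
      · exact h1
  · rintro ⟨p, rfl⟩
    obtain ⟨b, hb⟩ := h.1 p
    refine ⟨.inr b, (hb p).2 rfl, ?_⟩
    rintro (q | c) hu
    · rw [(hb q).1 hu]
    · exact absurd hu (by simp)

/-- An isomorphism maps points to points, and blocks to blocks. -/
theorem recover (h : Pend inc) (h' : Pend inc') (φ : sg inc ≃g sg inc') :
    ∃ (π : P ≃ P') (σ : B ≃ B'), ∀ b p, inc' (σ b) (π p) ↔ inc b p := by
  have h1 : ∀ p, ∃ p', φ (.inl p) = .inl p' := fun p =>
    (pend_iff h' _).1 (((pend_iff h _).2 ⟨p, rfl⟩).map φ)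
  have h2 : ∀ p', ∃ p, φ.symm (.inl p') = .inl p := fun p =>
    (pend_iff h _).1 (((pend_iff h' _).2 ⟨p, rfl⟩).map φ.symm)
  have h3 : ∀ b, ∃ b', φ (.inr b) = .inr b' := by
    intro b
    rcases h4 : φ (.inr b) with p' | b'
    · obtain ⟨p, hp⟩ := h2 p'
      rw [← h4, RelIso.symm_apply_apply] at hp
      exact absurd hp (by simp)
    · exact ⟨b', rfl⟩
  have h4 : ∀ b', ∃ b, φ.symm (.inr b') = .inr b := by
    intro b'
    rcases h5 : φ.symm (.inr b') with p | b
    · obtain ⟨p', hp⟩ := h1 p
      rw [← h5, RelIso.apply_symm_apply] at hp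
      exact absurd hp (by simp)
    · exact ⟨b, rfl⟩
  choose f hf using h1
  choose f' hf' using h2
  choose g hg using h3
  choose g' hg' using h4
  refine ⟨⟨f, f', fun p => ?_, fun p => ?_⟩, ⟨g, g', fun p => ?_, fun p => ?_⟩, fun b p => ?_⟩
  · have := hf' (f p)
    rw [← hf, RelIso.symm_apply_apply] at this
    exact (Sum.inl.inj this).symm
  · have := hf (f' p)
    rw [← hf', RelIso.apply_symm_apply] at this
    exact (Sum.inl.inj this).symm
  · have := hg' (g p)
    rw [← hg, RelIso.symm_apply_apply] at this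
    exact (Sum.inr.inj this).symm
  · have := hg (g' p)
    rw [← hg', RelIso.apply_symm_apply] at this
    exact (Sum.inr.inj this).symm
  · show inc' (g b) (f p) ↔ inc b p
    rw [← sg_rl inc', ← hg, ← hf, φ.map_adj_iff]
    exact Iff.rfl

end

end Pool.Agent.U17.Eig
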