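import Pool.Agent.U17.Eig.Comp

/-!
# The reduction: correctness
-/

set_option autoImplicit false
set_option linter.unusedSectionVars false

namespace Pool.Agent.U17.Eig

open Pool.Agent.NPC Pool.Agent.NPC.R671
open Pool.Agent.Y815.GI (GraphIso ent valid valid_iff length_adjMatrix ent_adjMatrix bits_mem)

/-! ### Correctness -/

theorem length_filter_eq {T A : Type*} [Fintype T] [DecidableEq A] (L : List A) (hL : L.Nodup)
    (c : T → A) (hc : Function.Injective c) (hm : ∀ z, z ∈ L ↔ ∃ t, c t = z) (f : A → Bool)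
    (g : T → Prop) [DecidablePred g] (hfg : ∀ t, f (c t) = true ↔ g t) :
    (L.filter f).length = (Finset.univ.filter g).card := by
  rw [← List.toFinset_card_of_nodup (hL.filter _), ← Finset.card_image_of_injective _ hc]
  congr 1
  ext z
  simp only [List.mem_toFinset, List.mem_filter, Finset.mem_image, Finset.mem_filter,
    Finset.mem_univ, true_and, hm]
  constructor
  · rintro ⟨⟨t, rfl⟩, h⟩
    exact ⟨t, (hfg t).1 h, rfl⟩
  · rintro ⟨t, h, rfl⟩
    exact ⟨⟨t, rfl⟩, (hfg t).2 h⟩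

section

variable {n : ℕ} (X : SimpleGraph (Fin n)) [DecidableRel X.Adj]

/-- the label of a point -/
def cP : PX n → Lp
  | .inl i => (0, i)
  | .inr c => (1, c)

theorem cP_inj {x y : PX n} : cP x = cP y ↔ x = y := by
  constructor
  · intro h
    rcases x with x | x <;> rcases y with y | y <;>
      simp only [cP, Prod.mk.injEq, true_and, zero_ne_one, one_ne_zero, false_and] at h
    · rw [Fin.ext h]
    · rw [Fin.ext h]
  · rintro rfl; rfl

theorem mem_pts (z : Lp) : z ∈ pts (adjMatrix X) ↔ ∃ x, cP (n := n) x = z := by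
  unfold pts
  rw [length_adjMatrix]
  simp only [List.mem_append, List.mem_map, List.mem_range, List.mem_cons, List.not_mem_nil,
    or_false]
  constructor
  · rintro (⟨a, h, rfl⟩ | h | h | h)
    · exact ⟨.inl ⟨a, h⟩, rfl⟩
    · exact ⟨.inr 0, h.symm⟩
    · exact ⟨.inr 1, h.symm⟩
    · exact ⟨.inr 2, h.symm⟩
  · rintro ⟨x | x, rfl⟩
    · exact Or.inl ⟨x, x.2, rfl⟩
    · right
      fin_cases x <;> simp [cP]

theorem nodup_pts (M : List (List Bool)) : (pts M).Nodup := by
  unfold pts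
  refine List.Nodup.append ?_ (by simp) ?_
  · refine List.nodup_range.map fun a b h => ?_
    simpa using h
  · intro z h1 h2
    rw [List.mem_map] at h1
    obtain ⟨p, _, rfl⟩ := h1
    simp at h2

/-- the label of a marker -/
def cM (z : MX X) : ℕ × ℕ := (z.1.1, z.1.2)

theorem cM_inj : Function.Injective (cM X) := by
  rintro ⟨⟨a, b⟩, h1⟩ ⟨⟨c, d⟩, h2⟩ h
  simp only [cM, Prod.mk.injEq] at h
  apply Subtype.ext
  exact Prod.ext (Fin.ext h.1) (Fin.ext h.2)

theorem mem_mks (z : ℕ × ℕ) : z ∈ mks (adjMatrix X) ↔ ∃ m, cM X m = z := by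
  unfold mks
  rw [length_adjMatrix]
  obtain ⟨a, b⟩ := z
  simp only [List.mem_filter, List.mem_product, List.mem_range, Bool.or_eq_true,
    decide_eq_true_eq]
  constructor
  · rintro ⟨⟨h1, h2⟩, h3⟩
    refine ⟨⟨(⟨a, h1⟩, ⟨b, h2⟩), ?_⟩, rfl⟩
    rcases h3 with h3 | h3
    · exact Or.inl (Fin.ext h3)
    · exact Or.inr ((ent_adjMatrix X ⟨a, h1⟩ ⟨b, h2⟩).1 h3)
  · rintro ⟨⟨⟨x, y⟩, hz⟩, h⟩
    simp only [cM, Prod.mk.injEq] at h
    obtain ⟨rfl, rfl⟩ := h
    refine ⟨⟨x.2, y.2⟩, ?_⟩
    rcases hz with hz | hz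
    · exact Or.inl (congrArg Fin.val hz)
    · exact Or.inr ((ent_adjMatrix X x y).2 hz)

theorem nodup_mks (M : List (List Bool)) : (mks M).Nodup :=
  (List.Nodup.product List.nodup_range List.nodup_range).filter _

theorem iB_code (m : MX X) (p : PX n) : iB (cM X m) (cP p) = true ↔ iX X m p := by
  rcases p with i | c
  · show _ ↔ (m.1.1 ≠ m.1.2 ∧ (i = m.1.1 ∨ i = m.1.2))
    simp [iB, cM, cP, Fin.ext_iff]
  · show _ ↔ True
    simp [iB, cP]

theorem cntB_code (p q : PX n) : cntB (adjMatrix X) (cP p) (cP q) = cnt (iX X) p q := by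
  unfold cntB cnt
  refine length_filter_eq (mks (adjMatrix X)) (nodup_mks _) (cM X) (cM_inj X) (mem_mks X) _ _
    fun t => ?_
  rw [Bool.and_eq_true, iB_code, iB_code]

theorem wtB_code (p q : PX n) :
    wtB (adjMatrix X) (cP p) (cP q) = wt (iX X) (kX n) p q := by
  unfold wtB wt
  rw [cntB_code, length_adjMatrix]
  by_cases h : p = q
  · rw [if_pos h, if_pos (by rw [h])]
  · rw [if_neg h, if_neg (fun h' => h (cP_inj.1 h'))]

/-- the label of a marker or a pair -/
def cR : Pre (iX X) (kX n) → Lb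
  | .inl (m, b) => (1, cM X m, (0, 0), b.toNat)
  | .inr z => (2, cP z.1.1, cP z.1.2, z.2)

theorem cR_inj : Function.Injective (cR X) := by
  rintro (⟨m, a⟩ | ⟨⟨z1, z2⟩, t⟩) (⟨l, b⟩ | ⟨⟨y1, y2⟩, s⟩) h
  · simp only [cR, Prod.mk.injEq, true_and] at h
    obtain ⟨h1, h2⟩ := h
    rw [cM_inj X h1]
    cases a <;> cases b <;> simp at h2 ⊢
  · exact absurd (congrArg Prod.fst h) (by simp [cR])
  · exact absurd (congrArg Prod.fst h) (by simp [cR])
  · simp only [cR, Prod.mk.injEq, true_and, cP_inj] at h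
    obtain ⟨rfl, rfl, h3⟩ := h
    rw [Fin.ext h3]

theorem mem_preL (z : Lb) : z ∈ preL (adjMatrix X) ↔ ∃ b, cR X b = z := by
  unfold preL
  rw [length_adjMatrix]
  simp only [List.mem_append, List.mem_map, List.mem_filter, decide_eq_true_eq]
  constructor
  · rintro (⟨⟨m, t⟩, hm, rfl⟩ | ⟨⟨⟨x, y⟩, t⟩, ⟨hm, ht⟩, rfl⟩)
    · rw [List.mem_product, mem_mks, List.mem_range] at hm
      obtain ⟨⟨m, rfl⟩, ht⟩ := hm
      refine ⟨.inl (m, decide (t = 1)), ?_⟩
      have : (decide (t = 1)).toNat = t := by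
        try dsimp only at ht
        interval_cases t <;> rfl
      simp only [cR, this]
    · rw [List.mem_product, List.mem_product, mem_pts, mem_pts] at hm
      obtain ⟨⟨⟨x, rfl⟩, ⟨y, rfl⟩⟩, _⟩ := hm
      dsimp only at ht
      rw [wtB_code] at ht
      exact ⟨.inr ⟨(x, y), ⟨t, ht⟩⟩, rfl⟩
  · rintro ⟨⟨m, b⟩ | ⟨⟨x, y⟩, t⟩, rfl⟩
    · refine Or.inl ⟨(cM X m, b.toNat), ?_, rfl⟩
      rw [List.mem_product, mem_mks, List.mem_range]
      refine ⟨⟨m, rfl⟩, ?_⟩
      cases b <;> simp
    · refine Or.inr ⟨((cP x, cP y), t), ⟨?_, ?_⟩, rfl⟩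
      · rw [List.mem_product, List.mem_product, mem_pts, mem_pts, List.mem_range]
        exact ⟨⟨⟨x, rfl⟩, ⟨y, rfl⟩⟩, lt_of_lt_of_le t.2 (wt_le x y)⟩
      · dsimp only
        rw [wtB_code]
        exact t.2

theorem nodup_preL (M : List (List Bool)) : (preL M).Nodup := by
  unfold preL
  refine List.Nodup.append ?_ ?_ ?_
  · refine (List.Nodup.product (nodup_mks M) List.nodup_range).map fun a b h => ?_
    simp only [Prod.mk.injEq, true_and] at h
    exact Prod.ext h.1 h.2
  · refine ((List.Nodup.product (List.Nodup.product (nodup_pts M) (nodup_pts M))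
      List.nodup_range).filter _).map fun a b h => ?_
    simp only [Prod.mk.injEq, true_and] at h
    exact Prod.ext (Prod.ext h.1 h.2.1) h.2.2
  · intro z h1 h2
    rw [List.mem_map] at h1 h2
    obtain ⟨p, _, rfl⟩ := h1
    obtain ⟨q, _, h3⟩ := h2
    exact absurd (congrArg Prod.fst h3) (by simp)

theorem incB_pre (b : Pre (iX X) (kX n)) (p : PX n) :
    incB (cR X b) (cP p) = true ↔ preInc (iX X) (kX n) b p := by
  rcases b with ⟨m, b⟩ | z
  · show _ ↔ iX X m p
    rw [← iB_code]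
    simp [incB, cR]
  · show _ ↔ (p = z.1.1 ∨ p = z.1.2)
    simp [incB, cR, cP_inj]

theorem dgB_code (p : PX n) : dgB (adjMatrix X) (cP p) = dg (iX X) (kX n) p := by
  unfold dgB dg
  exact length_filter_eq (preL (adjMatrix X)) (nodup_preL _) (cR X) (cR_inj X) (mem_preL X) _ _
    fun t => incB_pre X t p

/-- the label of a vertex -/
def code : PX n ⊕ Blk (iX X) (kX n) → Lb
  | .inl p => (0, cP p, (0, 0), 0)
  | .inr (.inl b) => cR X b
  | .inr (.inr z) => (3, cP z.1, (0, 0), z.2)

theorem cR_fst (b : Pre (iX X) (kX n)) : (cR X b).1 = 1 ∨ (cR X b).1 = 2 := by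
  rcases b with ⟨m, b⟩ | z
  · exact Or.inl rfl
  · exact Or.inr rfl

theorem code_inj : Function.Injective (code X) := by
  rintro (p | b | z) (q | c | y) h
  · simp only [code, Prod.mk.injEq, true_and, cP_inj, and_true] at h
    rw [h]
  · have h1 := congrArg Prod.fst h
    have h2 := cR_fst X c
    simp only [code] at h1
    omega
  · exact absurd (congrArg Prod.fst h) (by simp [code])
  · have h1 := congrArg Prod.fst h
    have h2 := cR_fst X b
    simp only [code] at h1
    omega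
  · rw [cR_inj X h]
  · have h1 := congrArg Prod.fst h
    have h2 := cR_fst X b
    simp only [code] at h1
    omega
  · exact absurd (congrArg Prod.fst h) (by simp [code])
  · have h1 := congrArg Prod.fst h
    have h2 := cR_fst X c
    simp only [code] at h1
    omega
  · obtain ⟨z, t⟩ := z
    obtain ⟨y, s⟩ := y
    simp only [code, Prod.mk.injEq, true_and, cP_inj] at h
    obtain ⟨rfl, h⟩ := h
    rw [Fin.ext h]

theorem incB_code (b : Blk (iX X) (kX n)) (p : PX n) :
    incB (code X (.inr b)) (cP p) = true ↔ bInc (iX X) (kX n) b p := by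
  rcases b with b | z
  · exact incB_pre X b p
  · show _ ↔ p = z.1
    simp [incB, code, cP_inj]

theorem code_fst (b : Blk (iX X) (kX n)) : (code X (.inr b)).1 ≠ 0 := by
  rcases b with b | z
  · have := cR_fst X b
    simp only [code]
    omega
  · simp [code]

theorem adB_code (a b : PX n ⊕ Blk (iX X) (kX n)) :
    adB (code X a) (code X b) = true ↔ (gX X).Adj a b := by
  rcases a with p | b' <;> rcases b with q | c
  · show _ ↔ p ≠ q
    simp only [adB, relB, incB, code, Bool.or_eq_true, Bool.and_eq_true, decide_eq_true_eq,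
      Bool.not_eq_true', decide_eq_false_iff_not, cP_inj]
    constructor
    · rintro (⟨_, h | h | h | h⟩ | ⟨_, h | h | h | h⟩)
      · exact h.2
      · omega
      · omega
      · omega
      · exact fun h' => h.2 h'.symm
      · omega
      · omega
      · omega
    · intro h
      exact Or.inl ⟨trivial, Or.inl ⟨trivial, h⟩⟩
  · show _ ↔ bInc (iX X) (kX n) c p
    rw [← incB_code]
    have h1 := code_fst X c
    have h2 : (code X (.inl p)).1 = 0 := rfl
    have h3 : (code X (.inl p)).2.1 = cP p := rfl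
    simp [adB, relB, h1, h2, h3]
  · show _ ↔ bInc (iX X) (kX n) b' q
    rw [← incB_code]
    have h1 := code_fst X b'
    have h2 : (code X (.inl q)).1 = 0 := rfl
    have h3 : (code X (.inl q)).2.1 = cP q := rfl
    simp [adB, relB, h1, h2, h3]
  · show _ ↔ False
    have h1 := code_fst X b'
    have h2 := code_fst X c
    simp [adB, relB, h1, h2]

theorem mem_verts (z : Lb) : z ∈ verts (adjMatrix X) ↔ ∃ a, code X a = z := by
  unfold verts sgL
  rw [length_adjMatrix]
  simp only [List.mem_append, List.mem_map, List.mem_filter, okB, length_adjMatrix,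
    decide_eq_true_eq, mem_preL, mem_pts]
  constructor
  · rintro (⟨_, ⟨x, rfl⟩, rfl⟩ | ⟨b, rfl⟩ | ⟨⟨p, t⟩, ⟨hm, ht⟩, rfl⟩)
    · exact ⟨.inl x, rfl⟩
    · exact ⟨.inr (.inl b), rfl⟩
    · rw [List.mem_product, mem_pts] at hm
      obtain ⟨⟨x, rfl⟩, _⟩ := hm
      dsimp only at ht
      rw [dgB_code, k4, ← sq] at ht
      exact ⟨.inr (.inr ⟨x, ⟨t, ht⟩⟩), rfl⟩
  · rintro ⟨x | b | ⟨x, t⟩, rfl⟩
    · exact Or.inl ⟨cP x, ⟨x, rfl⟩, rfl⟩
    · exact Or.inr (Or.inl ⟨b, rfl⟩)
    · refine Or.inr (Or.inr ⟨(cP x, t), ⟨?_, ?_⟩, rfl⟩)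
      · rw [List.mem_product, mem_pts, List.mem_range, k4, ← sq]
        exact ⟨⟨x, rfl⟩, lt_of_lt_of_le t.2 (Nat.sub_le _ _)⟩
      · dsimp only
        rw [dgB_code, k4, ← sq]
        exact t.2

theorem nodup_verts : (verts (adjMatrix X)).Nodup := by
  unfold verts
  refine List.Nodup.append ?_ (List.Nodup.append ?_ ?_ ?_) ?_
  · refine (nodup_pts _).map fun a b h => ?_
    simp only [Prod.mk.injEq, true_and, and_true] at h
    exact h
  · exact nodup_preL _
  · refine ((List.Nodup.product (nodup_pts _) List.nodup_range).filter _).map fun a b h => ?_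
    simp only [Prod.mk.injEq, true_and] at h
    exact Prod.ext h.1 h.2
  · intro z h1 h2
    rw [mem_preL] at h1
    unfold sgL at h2
    rw [List.mem_map] at h2
    obtain ⟨b, rfl⟩ := h1
    obtain ⟨q, _, h3⟩ := h2
    have h4 := congrArg Prod.fst h3
    have h5 := cR_fst X b
    dsimp only at h4
    omega
  · intro z h1 h2
    rw [List.mem_append, mem_preL] at h2
    unfold sgL at h2
    rw [List.mem_map] at h1 h2
    obtain ⟨p, _, rfl⟩ := h1
    rcases h2 with ⟨b, h3⟩ | ⟨q, _, h3⟩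
    · have h4 := congrArg Prod.fst h3
      have h5 := cR_fst X b
      dsimp only at h4
      omega
    · exact absurd (congrArg Prod.fst h3) (by simp)

/-- The output is the adjacency matrix of a graph isomorphic to the construction. -/
theorem out_eq : ∃ (N : ℕ) (X' : SimpleGraph (Fin N)),
    adjMatrix X' = out (adjMatrix X) ∧ Nonempty (X' ≃g gX X) := by
  obtain ⟨e, he⟩ := exists_equiv (verts (adjMatrix X)) (nodup_verts X) (code X)
    (code_inj X) (mem_verts X)
  refine ⟨_, listGraph (verts (adjMatrix X)) adB adB_symm adB_irrefl,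
    ?_, ⟨⟨e, ?_⟩⟩⟩
  · rw [adjMatrix_listGraph]
    rfl
  · intro a b
    rw [← adB_code, he, he]
    exact Iff.rfl

end

/-- The class of graphs: connected split graphs with exactly four distinct eigenvalues, all of them
integers. -/
def Four {V : Type*} [Fintype V] (G : SimpleGraph V) : Prop :=
  G.Connected ∧ IsSplit G ∧ (eigs G).ncard = 4 ∧ ∀ θ ∈ eigs G, ∃ z : ℤ, θ = z

theorem Four.of_iso {V W : Type*} [Fintype V] [Fintype W] {G : SimpleGraph V}
    {H : SimpleGraph W} (φ : G ≃g H) (h : Four G) : Four H := by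
  obtain ⟨h1, h2, h3, h4⟩ := h
  rw [eigs_iso φ] at h3 h4
  exact ⟨φ.connected_iff.1 h1, h2.of_iso φ, h3, h4⟩

theorem gX_Four {n : ℕ} (X : SimpleGraph (Fin n)) [DecidableRel X.Adj] : Four (gX X) := by
  obtain ⟨h1, h2, h3⟩ := gX_four X
  refine ⟨h1, h2, ?_, ?_⟩
  · rw [h3]
    exact ncard_four (by have := kX_ge n; omega) (n + 3) (by omega)
  · rw [h3]
    intro θ hθ
    simp only [Set.mem_insert_iff, Set.mem_singleton_iff] at hθ
    rcases hθ with rfl | rfl | rfl | rfl
    · exact ⟨0, by simp⟩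
    · exact ⟨-((2 * kX n : ℕ) : ℤ), by push_cast; ring⟩
    · exact ⟨((2 * kX n : ℕ) : ℤ) - 1, by push_cast; ring⟩
    · exact ⟨((n + 3 : ℕ) : ℤ) - 1 + (2 * kX n : ℕ), by push_cast; ring⟩

end Pool.Agent.U17.Eig
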