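import Pool.Agent.U17.Eig.Compl

/-!
# Encoding a graph in a split graph with four distinct eigenvalues

The markers of a graph `X` are the sets `Z` and `{i, j} ∪ Z` for adjacent `i`, `j`, where `Z` is a
set of three new points.
-/

set_option autoImplicit false
set_option linter.unusedSectionVars false

namespace Pool.Agent.U17.Eig

open Finset

section

variable {n : ℕ}

/-- the points -/
abbrev PX (n : ℕ) : Type := Fin n ⊕ Fin 3

/-- the markers -/
abbrev MX (X : SimpleGraph (Fin n)) : Type := {z : Fin n × Fin n // z.1 = z.2 ∨ X.Adj z.1 z.2}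

/-- the set of a marker -/
def iX (X : SimpleGraph (Fin n)) : MX X → PX n → Prop
  | z, .inl i => z.1.1 ≠ z.1.2 ∧ (i = z.1.1 ∨ i = z.1.2)
  | _, .inr _ => True

instance (X : SimpleGraph (Fin n)) : ∀ m p, Decidable (iX X m p)
  | z, .inl i => inferInstanceAs (Decidable (z.1.1 ≠ z.1.2 ∧ (i = z.1.1 ∨ i = z.1.2)))
  | _, .inr _ => inferInstanceAs (Decidable True)

/-- the parameter -/
def kX (n : ℕ) : ℕ := (n + 3) * (n + 3)

theorem kX_ge (n : ℕ) : 9 ≤ kX n := by
  unfold kX
  nlinarith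

theorem card_PX (n : ℕ) : Fintype.card (PX n) = n + 3 := by simp

theorem kX_P (n : ℕ) : Fintype.card (PX n) ^ 2 ≤ kX n := by
  rw [card_PX, kX, sq]

theorem kX_M (X : SimpleGraph (Fin n)) [DecidableRel X.Adj] : Fintype.card (MX X) ≤ kX n := by
  refine (Fintype.card_subtype_le _).trans ?_
  rw [Fintype.card_prod, Fintype.card_fin, kX]
  nlinarith

variable (X : SimpleGraph (Fin n)) [DecidableRel X.Adj]

/-- The split graph of a graph. -/
abbrev gX : SimpleGraph (PX n ⊕ Blk (iX X) (kX n)) := sg (bInc (iX X) (kX n))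

theorem gX_four : (gX X).Connected ∧ IsSplit (gX X) ∧
    eigs (gX X) = {0, -((2 * kX n : ℕ) : ℝ), ((2 * kX n : ℕ) : ℝ) - 1,
      ((n + 3 : ℕ) : ℝ) - 1 + (2 * kX n : ℕ)} := by
  have h := four (inc := iX X) (k := kX n) (kX_M X) (kX_P n) (by have := kX_ge n; omega)
    (fun m => ⟨.inr 0, trivial⟩) (by rw [card_PX]; omega)
  rwa [card_PX] at h

theorem gX_pend : Pend (bInc (iX X) (kX n)) := by
  refine ⟨fun p => ⟨sing (kX_M X) (kX_P n) (by have := kX_ge n; omega) p 0, fun q => ?_⟩,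
    fun p => ?_⟩
  · rw [sing_inc]
  · by_cases h : p = .inr 0
    · exact ⟨.inr 1, by rw [h]; simp⟩
    · exact ⟨.inr 0, fun h' => h h'.symm⟩

variable {X}

theorem isZ_iff (hn : 0 < n) (p : PX n) : (∃ c, p = .inr c) ↔
    ∃ b, bInc (iX X) (kX n) b p ∧ ∃ x y z : PX n, x ≠ y ∧ x ≠ z ∧ y ≠ z ∧
      ∀ q, bInc (iX X) (kX n) b q ↔ (q = x ∨ q = y ∨ q = z) := by
  constructor
  · rintro ⟨c, rfl⟩
    refine ⟨.inl (.inl (⟨(⟨0, hn⟩, ⟨0, hn⟩), Or.inl rfl⟩, true)), trivial,
      .inr 0, .inr 1, .inr 2, by simp, by simp, by simp, ?_⟩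
    rintro (i | d)
    · constructor
      · rintro ⟨h, _⟩
        exact absurd rfl h
      · intro h
        simp at h
    · constructor
      · intro _
        fin_cases d <;> simp
      · intro _
        trivial
  · rintro ⟨b, hb, x, y, z, hxy, hxz, hyz, h⟩
    rcases b with (⟨m, _⟩ | c) | c
    · by_cases hm : m.1.1 = m.1.2
      · rcases p with i | d
        · exact absurd hm hb.1
        · exact ⟨d, rfl⟩
      · exfalso
        have h1 := (h (.inl m.1.1)).1 ⟨hm, Or.inl rfl⟩
        have h3 := (h (.inr 0)).1 trivial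
        have h4 := (h (.inr 1)).1 trivial
        have h5 := (h (.inr 2)).1 trivial
        have e1 : (Sum.inr 0 : PX n) ≠ .inr 1 := by simp
        have e2 : (Sum.inr 0 : PX n) ≠ .inr 2 := by simp
        have e3 : (Sum.inr 1 : PX n) ≠ .inr 2 := by simp
        have e4 : ∀ d, (Sum.inl m.1.1 : PX n) ≠ .inr d := by simp
        have e5 := e4 0
        have e6 := e4 1
        have e7 := e4 2
        clear h e4 hb
        grind
    · exfalso
      have hx := (h x).2 (Or.inl rfl)
      have hy := (h y).2 (Or.inr (Or.inl rfl))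
      have hz := (h z).2 (Or.inr (Or.inr rfl))
      change x = c.1.1 ∨ x = c.1.2 at hx
      change y = c.1.1 ∨ y = c.1.2 at hy
      change z = c.1.1 ∨ z = c.1.2 at hz
      clear h hb
      grind
    · exfalso
      have hx : x = c.1 := (h x).2 (Or.inl rfl)
      have hy : y = c.1 := (h y).2 (Or.inr (Or.inl rfl))
      exact hxy (hx.trans hy.symm)

theorem adj_iff (i j : Fin n) (hij : i ≠ j) : X.Adj i j ↔
    ∃ b, bInc (iX X) (kX n) b (.inl i) ∧ bInc (iX X) (kX n) b (.inl j) ∧
      ∃ q, q ≠ .inl i ∧ q ≠ .inl j ∧ bInc (iX X) (kX n) b q := by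
  constructor
  · intro h
    exact ⟨.inl (.inl (⟨(i, j), Or.inr h⟩, true)), ⟨hij, Or.inl rfl⟩, ⟨hij, Or.inr rfl⟩,
      .inr 0, by simp, by simp, trivial⟩
  · rintro ⟨b, h1, h2, q, h3, h4, h5⟩
    rcases b with (⟨m, _⟩ | c) | c
    · obtain ⟨⟨x, y⟩, hm⟩ := m
      obtain ⟨g1, g2⟩ := h1
      obtain ⟨g3, g4⟩ := h2
      dsimp only at g1 g2 g4 hm
      rcases hm with hm | hm
      · exact absurd hm g1
      · rcases g2 with rfl | rfl <;> rcases g4 with rfl | rfl
        · exact absurd rfl hij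
        · exact hm
        · exact hm.symm
        · exact absurd rfl hij
    · exfalso
      change Sum.inl i = c.1.1 ∨ Sum.inl i = c.1.2 at h1
      change Sum.inl j = c.1.1 ∨ Sum.inl j = c.1.2 at h2
      change q = c.1.1 ∨ q = c.1.2 at h5
      have h6 : (Sum.inl i : PX n) ≠ .inl j := fun h => hij (Sum.inl.inj h)
      grind
    · exfalso
      have h6 : (Sum.inl i : PX n) ≠ .inl j := fun h => hij (Sum.inl.inj h)
      change Sum.inl i = c.1 at h1
      change Sum.inl j = c.1 at h2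
      exact h6 (h1.trans h2.symm)

/-- Isomorphism of graphs and of the constructions. -/
theorem iso_iff (X Y : SimpleGraph (Fin n)) [DecidableRel X.Adj] [DecidableRel Y.Adj] :
    Nonempty (X ≃g Y) ↔ Nonempty (gX X ≃g gX Y) := by
  constructor
  · rintro ⟨φ⟩
    refine sg_iso (Equiv.sumCongr φ.toEquiv (Equiv.refl _))
      ((Equiv.prodCongr φ.toEquiv φ.toEquiv).subtypeEquiv fun z => ?_) ?_
    · show _ ↔ (φ z.1 = φ z.2 ∨ Y.Adj (φ z.1) (φ z.2))
      rw [φ.injective.eq_iff, φ.map_adj_iff]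
    · rintro ⟨⟨x, y⟩, hz⟩ (i | c)
      · show (φ x ≠ φ y ∧ (φ i = φ x ∨ φ i = φ y)) ↔ (x ≠ y ∧ (i = x ∨ i = y))
        simp
      · exact Iff.rfl
  · rintro ⟨ψ⟩
    by_cases hn : n = 0
    · subst hn
      exact ⟨⟨Equiv.refl _, fun {a} => a.elim0⟩⟩
    have hn' : 0 < n := Nat.pos_of_ne_zero hn
    obtain ⟨π, σ, h⟩ := recover (gX_pend X) (gX_pend Y) ψ
    have h1 : ∀ p, (∃ c, p = .inr c) ↔ ∃ c, π p = .inr c := by
      intro p
      rw [isZ_iff (X := X) hn', isZ_iff (X := Y) hn']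
      constructor
      · rintro ⟨b, hb, x, y, z, hxy, hxz, hyz, g⟩
        refine ⟨σ b, (h b p).2 hb, π x, π y, π z, π.injective.ne hxy, π.injective.ne hxz,
          π.injective.ne hyz, fun q => ?_⟩
        obtain ⟨q, rfl⟩ := π.surjective q
        rw [h, g]
        simp
      · rintro ⟨b, hb, x, y, z, hxy, hxz, hyz, g⟩
        obtain ⟨b, rfl⟩ := σ.surjective b
        obtain ⟨x, rfl⟩ := π.surjective x
        obtain ⟨y, rfl⟩ := π.surjective y
        obtain ⟨z, rfl⟩ := π.surjective z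
        refine ⟨b, (h b p).1 hb, x, y, z, fun e => hxy (by rw [e]), fun e => hxz (by rw [e]),
          fun e => hyz (by rw [e]), fun q => ?_⟩
        rw [← h, g]
        simp
    have h2 : ∀ i, ∃ j, π (.inl i) = .inl j := by
      intro i
      rcases h3 : π (.inl i) with j | c
      · exact ⟨j, rfl⟩
      · obtain ⟨d, hd⟩ := (h1 (.inl i)).2 ⟨c, h3⟩
        exact absurd hd (by simp)
    have h3 : ∀ j, ∃ i, π (.inl i) = .inl j := by
      intro j
      obtain ⟨x, hx⟩ := π.surjective (.inl j)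
      rcases x with i | c
      · exact ⟨i, hx⟩
      · obtain ⟨d, hd⟩ := (h1 (.inr c)).1 ⟨c, rfl⟩
        rw [hx] at hd
        exact absurd hd (by simp)
    choose f hf using h2
    have hinj : Function.Injective f := by
      intro i j hij
      apply Sum.inl_injective (β := Fin 3)
      apply π.injective
      rw [hf, hf, hij]
    have hsurj : Function.Surjective f := by
      intro j
      obtain ⟨i, hi⟩ := h3 j
      exact ⟨i, Sum.inl_injective (β := Fin 3) (by rw [← hf, hi])⟩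
    refine ⟨⟨Equiv.ofBijective f ⟨hinj, hsurj⟩, ?_⟩⟩
    intro i j
    change Y.Adj (f i) (f j) ↔ X.Adj i j
    by_cases hij : i = j
    · subst hij
      simp
    · rw [adj_iff (X := X) i j hij, adj_iff (X := Y) (f i) (f j) (hinj.ne hij), ← hf, ← hf]
      constructor
      · rintro ⟨b, g1, g2, q, g3, g4, g5⟩
        obtain ⟨b, rfl⟩ := σ.surjective b
        obtain ⟨q, rfl⟩ := π.surjective q
        exact ⟨b, (h _ _).1 g1, (h _ _).1 g2, q, fun e => g3 (by rw [e]),
          fun e => g4 (by rw [e]), (h _ _).1 g5⟩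
      · rintro ⟨b, g1, g2, q, g3, g4, g5⟩
        exact ⟨σ b, (h _ _).2 g1, (h _ _).2 g2, π q, π.injective.ne g3, π.injective.ne g4,
          (h _ _).2 g5⟩

end

end Pool.Agent.U17.Eig
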