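import Pool.Agent.U17.Eig.Corr

/-!
# The reduction
-/

set_option autoImplicit false

namespace Pool.Agent.U17.Eig

open Pool.Agent.NPC Pool.Agent.NPC.R671
open Pool.Agent.Y815.GI (GraphIso ent valid valid_iff length_adjMatrix ent_adjMatrix bits_mem)

/-- the reduction -/
noncomputable def red (p : List (List Bool) × List (List Bool)) : List (List Bool) × List (List Bool) :=
  if (valid p.1 = true ∧ valid p.2 = true) ∧ p.1.length = p.2.length then (out p.1, out p.2)
  else (out (adjMatrix (⊥ : SimpleGraph (Fin 0))), out (adjMatrix (⊥ : SimpleGraph (Fin 1))))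

theorem not_iso : ¬ Nonempty (gX (⊥ : SimpleGraph (Fin 0)) ≃g gX (⊥ : SimpleGraph (Fin 1))) := by
  rintro ⟨φ⟩
  have h := eigs_iso φ
  rw [(gX_four (⊥ : SimpleGraph (Fin 0))).2.2, (gX_four (⊥ : SimpleGraph (Fin 1))).2.2] at h
  have h1 : (-((2 * kX 0 : ℕ) : ℝ)) ∈ ({0, -((2 * kX 1 : ℕ) : ℝ), ((2 * kX 1 : ℕ) : ℝ) - 1,
      ((1 + 3 : ℕ) : ℝ) - 1 + (2 * kX 1 : ℕ)} : Set ℝ) := by
    rw [← h]
    simp
  have e0 : kX 0 = 9 := rfl
  have e1 : kX 1 = 16 := rfl
  rw [e0, e1] at h1
  norm_num at h1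

theorem red_spec (p : List (List Bool) × List (List Bool)) :
    ∃ (N M : ℕ) (X' : SimpleGraph (Fin N)) (Y' : SimpleGraph (Fin M)),
      red p = (adjMatrix X', adjMatrix Y') ∧ Four X' ∧ Four Y' ∧
        (GraphIso p ↔ Nonempty (X' ≃g Y')) := by
  classical
  by_cases h : (valid p.1 = true ∧ valid p.2 = true) ∧ p.1.length = p.2.length
  · obtain ⟨p1, p2⟩ := p
    obtain ⟨⟨h1, h2⟩, h3⟩ := h
    have h1' := h1
    have h2' := h2
    rw [valid_iff] at h1 h2
    obtain ⟨n, X, rfl⟩ := h1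
    obtain ⟨m, Y, rfl⟩ := h2
    rw [length_adjMatrix, length_adjMatrix] at h3
    subst h3
    have h5 : GraphIso (adjMatrix X, adjMatrix Y) ↔ Nonempty (X ≃g Y) := by
      constructor
      · rintro ⟨n', m', X₁, Y₁, e1, e2, h⟩
        have hn' : n' = n := by
          rw [← length_adjMatrix X₁, e1, length_adjMatrix]
        have hm' : m' = n := by
          rw [← length_adjMatrix Y₁, e2, length_adjMatrix]
        subst hn'
        subst hm'
        rw [adjMatrix_inj e1, adjMatrix_inj e2] at h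
        exact h
      · intro h
        exact ⟨n, n, X, Y, rfl, rfl, h⟩
    obtain ⟨N, X', hX', ⟨φ⟩⟩ := out_eq X
    obtain ⟨M, Y', hY', ⟨ψ⟩⟩ := out_eq Y
    refine ⟨N, M, X', Y', ?_, (gX_Four X).of_iso φ.symm, (gX_Four Y).of_iso ψ.symm, ?_⟩
    · unfold red
      rw [if_pos ⟨⟨h1', h2'⟩, by rw [length_adjMatrix, length_adjMatrix]⟩, hX', hY']
    · rw [h5, iso_iff X Y]
      constructor
      · rintro ⟨χ⟩
        exact ⟨φ.trans (χ.trans ψ.symm)⟩
      · rintro ⟨χ⟩
        exact ⟨φ.symm.trans (χ.trans ψ)⟩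
  · obtain ⟨N, X', hX', ⟨φ⟩⟩ := out_eq (⊥ : SimpleGraph (Fin 0))
    obtain ⟨M, Y', hY', ⟨ψ⟩⟩ := out_eq (⊥ : SimpleGraph (Fin 1))
    refine ⟨N, M, X', Y', ?_, (gX_Four _).of_iso φ.symm, (gX_Four _).of_iso ψ.symm, ?_⟩
    · unfold red
      rw [if_neg h, hX', hY']
    · constructor
      · rintro ⟨n, m, X, Y, h1, h2, ⟨χ⟩⟩
        exfalso
        apply h
        refine ⟨⟨(valid_iff _).2 ⟨n, X, h1⟩, (valid_iff _).2 ⟨m, Y, h2⟩⟩, ?_⟩
        rw [← h1, ← h2, length_adjMatrix, length_adjMatrix]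
        have := Fintype.card_congr χ.toEquiv
        simpa using this
      · rintro ⟨χ⟩
        exact absurd ⟨φ.symm.trans (χ.trans ψ)⟩ not_iso

theorem poly_red : Poly red := by
  unfold red
  fun_prop

/-- The reduction on bit strings. -/
noncomputable def redBits (x : List Bool) : List (List Bool) × List (List Bool) :=
  (unbits (List (List Bool) × List (List Bool)) x).elim (red ([], [[]])) red

theorem poly_redBits : Poly redBits := by
  unfold redBits
  exact NPC.Poly.optElim poly_unbits (NPC.Poly.const _) (poly_red.comp (NPC.Poly.snd NPC.Poly.id))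

theorem redBits_spec (x : List Bool) :
    ∃ (N M : ℕ) (X' : SimpleGraph (Fin N)) (Y' : SimpleGraph (Fin M)),
      redBits x = (adjMatrix X', adjMatrix Y') ∧ Four X' ∧ Four Y' ∧
        (x ∈ lang GraphIso ↔ Nonempty (X' ≃g Y')) := by
  unfold redBits
  rw [mem_lang_iff]
  cases h : unbits (List (List Bool) × List (List Bool)) x with
  | none =>
    obtain ⟨N, M, X', Y', h1, h2, h3, h4⟩ := red_spec ([], [[]])
    refine ⟨N, M, X', Y', h1, h2, h3, ?_⟩
    rw [← h4]
    constructor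
    · rintro ⟨a, ha, _⟩
      exact absurd ha (by simp)
    · rintro ⟨n, m, X, Y, e1, e2, -⟩
      exfalso
      have h5 : m = 1 := by
        rw [← length_adjMatrix Y, e2]
        rfl
      subst h5
      simp [adjMatrix] at e2
  | some p =>
    obtain ⟨N, M, X', Y', h1, h2, h3, h4⟩ := red_spec p
    refine ⟨N, M, X', Y', h1, h2, h3, ?_⟩
    rw [← h4]
    constructor
    · rintro ⟨a, ha, h5⟩
      rw [Option.some.inj ha]
      exact h5
    · intro h5
      exact ⟨p, rfl, h5⟩

/-- The graph isomorphism problem reduces in polynomial time to the isomorphism problem of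
connected split graphs with four distinct eigenvalues, all of them integers. -/
theorem main : ∃ f : List Bool → List Bool, PolyTime f ∧ ∀ x : List Bool,
    ∃ (N M : ℕ) (X' : SimpleGraph (Fin N)) (Y' : SimpleGraph (Fin M)),
      f x = bits (adjMatrix X', adjMatrix Y') ∧ Four X' ∧ Four Y' ∧
        (x ∈ lang GraphIso ↔ Nonempty (X' ≃g Y')) := by
  refine ⟨fun x => bits (redBits x), polyTime_bits poly_redBits, fun x => ?_⟩
  obtain ⟨N, M, X', Y', h1, h2, h3, h4⟩ := redBits_spec x
  exact ⟨N, M, X', Y', congrArg bits h1, h2, h3, h4⟩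

end Pool.Agent.U17.Eig
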