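import Mathlib

/-!
# Split graphs with four distinct eigenvalues

The points of an incidence structure form a clique, the blocks are pairwise nonadjacent.  If every
point is on `l ^ 2` blocks and any two points are on `l` blocks, then the graph has the eigenvalues
`0`, `-l`, `l - 1` and `N - 1 + l`, where `N` is the number of points.
-/

set_option autoImplicit false
set_option linter.unusedSectionVars false

namespace Pool.Agent.U17.Eig

open Finset

section Basic

variable {P B : Type*}

/-- adjacency in the split graph of an incidence structure -/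
def sadj (inc : B → P → Prop) : P ⊕ B → P ⊕ B → Prop
  | .inl p, .inl q => p ≠ q
  | .inl p, .inr b => inc b p
  | .inr b, .inl p => inc b p
  | .inr _, .inr _ => False

/-- The split graph of an incidence structure: the points form a clique, the blocks are pairwise
nonadjacent. -/
def sg (inc : B → P → Prop) : SimpleGraph (P ⊕ B) where
  Adj := sadj inc
  symm := ⟨fun x y h => by
    cases x <;> cases y <;> simp only [sadj] at h ⊢ <;> first | exact h | exact h.symm⟩
  loopless := ⟨fun x h => by
    cases x <;> simp only [sadj] at h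
    exact h rfl⟩

@[simp] theorem sg_ll (inc : B → P → Prop) (p q : P) :
    (sg inc).Adj (.inl p) (.inl q) ↔ p ≠ q := Iff.rfl
@[simp] theorem sg_lr (inc : B → P → Prop) (p : P) (b : B) :
    (sg inc).Adj (.inl p) (.inr b) ↔ inc b p := Iff.rfl
@[simp] theorem sg_rl (inc : B → P → Prop) (p : P) (b : B) :
    (sg inc).Adj (.inr b) (.inl p) ↔ inc b p := Iff.rfl
@[simp] theorem sg_rr (inc : B → P → Prop) (b c : B) :
    (sg inc).Adj (.inr b) (.inr c) ↔ False := Iff.rfl

instance decSg [DecidableEq P] (inc : B → P → Prop) [∀ b p, Decidable (inc b p)] :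
    DecidableRel (sg inc).Adj := fun x y => by
  cases x <;> cases y <;> simp only [sg_ll, sg_lr, sg_rl, sg_rr] <;> infer_instance

/-- The vertices of the graph split into a clique and a set of pairwise nonadjacent vertices. -/
def IsSplit {V : Type*} (G : SimpleGraph V) : Prop :=
  ∃ K : Set V, G.IsClique K ∧ G.IsIndepSet Kᶜ

theorem sg_split (inc : B → P → Prop) : IsSplit (sg inc) := by
  refine ⟨Set.range Sum.inl, ?_, ?_⟩
  · rintro _ ⟨p, rfl⟩ _ ⟨q, rfl⟩ h
    exact fun h' => h (by rw [h'])
  · rintro (p | b) hx (q | c) hy h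
    · exact absurd ⟨p, rfl⟩ hx
    · exact absurd ⟨p, rfl⟩ hx
    · exact absurd ⟨q, rfl⟩ hy
    · exact fun h => h

theorem sg_connected (inc : B → P → Prop) [Nonempty P] (h : ∀ b, ∃ p, inc b p) :
    (sg inc).Connected := by
  obtain ⟨p₀⟩ := (inferInstance : Nonempty P)
  have h1 : ∀ p : P, (sg inc).Reachable (.inl p) (.inl p₀) := by
    intro p
    by_cases hp : p = p₀
    · rw [hp]
    · exact SimpleGraph.Adj.reachable (by simpa using hp)
  have h2 : ∀ x : P ⊕ B, (sg inc).Reachable x (.inl p₀) := by
    rintro (p | b)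
    · exact h1 p
    · obtain ⟨p, hp⟩ := h b
      exact (SimpleGraph.Adj.reachable (by simpa using hp)).trans (h1 p)
  have : Nonempty (P ⊕ B) := ⟨.inl p₀⟩
  exact ⟨fun x y => (h2 x).trans (h2 y).symm⟩

end Basic

section Spectrum

variable {P B : Type*} [Fintype P] [Fintype B] [DecidableEq P] [DecidableEq B]
  (inc : B → P → Prop) [∀ b p, Decidable (inc b p)]

/-- The number of blocks through two points. -/
def Design (l : ℕ) : Prop :=
  (∀ p, (univ.filter (fun b => inc b p)).card = l ^ 2) ∧
    ∀ p q, p ≠ q → (univ.filter (fun b => inc b p ∧ inc b q)).card = l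

variable {inc} {l : ℕ}

theorem sum_sum (h : Design inc l) (x : P → ℝ) (p : P) :
    ∑ b, (if inc b p then ∑ q, (if inc b q then x q else 0) else 0) =
      ((l : ℝ) ^ 2 - l) * x p + l * ∑ q, x q := by
  have h1 : ∀ b, (if inc b p then ∑ q, (if inc b q then x q else 0) else 0) =
      ∑ q, (if inc b p ∧ inc b q then x q else 0) := by
    intro b
    by_cases hb : inc b p <;> simp [hb]
  simp_rw [h1]
  rw [Finset.sum_comm]
  have h2 : ∀ q, ∑ b, (if inc b p ∧ inc b q then x q else 0) =
      (if q = p then ((l : ℝ) ^ 2 - l) * x q else 0) + l * x q := by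
    intro q
    rw [← Finset.sum_filter, Finset.sum_const, nsmul_eq_mul]
    by_cases hq : q = p
    · subst hq
      have h3 : (univ.filter (fun b => inc b q ∧ inc b q)).card = l ^ 2 := by
        simpa using h.1 q
      rw [h3, if_pos rfl]
      push_cast
      ring
    · rw [h.2 p q (Ne.symm hq), if_neg hq]
      ring
  simp_rw [h2]
  rw [Finset.sum_add_distrib, ← Finset.mul_sum]
  simp

theorem mulVec_inl (v : P ⊕ B → ℝ) (p : P) :
    ((sg inc).adjMatrix ℝ).mulVec v (.inl p) =
      (∑ q, v (.inl q) - v (.inl p)) + ∑ b, (if inc b p then v (.inr b) else 0) := by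
  rw [Matrix.mulVec, dotProduct, Fintype.sum_sum_type]
  congr 1
  · have h1 : ∀ q : P, (sg inc).adjMatrix ℝ (.inl p) (.inl q) * v (.inl q) =
        v (.inl q) - (if q = p then v (.inl q) else 0) := by
      intro q
      rw [SimpleGraph.adjMatrix_apply]
      by_cases hq : q = p
      · subst hq; simp
      · simp [hq, Ne.symm hq]
    simp_rw [h1]
    rw [Finset.sum_sub_distrib]
    simp
  · refine Finset.sum_congr rfl fun b _ => ?_
    rw [SimpleGraph.adjMatrix_apply]
    by_cases hb : inc b p <;> simp [hb]

theorem mulVec_inr (v : P ⊕ B → ℝ) (b : B) :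
    ((sg inc).adjMatrix ℝ).mulVec v (.inr b) = ∑ q, (if inc b q then v (.inl q) else 0) := by
  rw [Matrix.mulVec, dotProduct, Fintype.sum_sum_type]
  have h1 : ∑ c : B, (sg inc).adjMatrix ℝ (.inr b) (.inr c) * v (.inr c) = 0 := by
    refine Finset.sum_eq_zero fun c _ => ?_
    rw [SimpleGraph.adjMatrix_apply]
    simp
  rw [h1, add_zero]
  refine Finset.sum_congr rfl fun q _ => ?_
  rw [SimpleGraph.adjMatrix_apply]
  by_cases hb : inc b q <;> simp [hb]

theorem mem_spectrum_iff {V : Type*} [Fintype V] [DecidableEq V] (A : Matrix V V ℝ) (θ : ℝ) :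
    θ ∈ spectrum ℝ A ↔ ∃ v : V → ℝ, v ≠ 0 ∧ A.mulVec v = θ • v := by
  rw [← Matrix.spectrum_toLin', ← Module.End.hasEigenvalue_iff_mem_spectrum]
  constructor
  · intro h
    obtain ⟨v, hv⟩ := h.exists_hasEigenvector
    refine ⟨v, hv.2, ?_⟩
    have := hv.apply_eq_smul
    rwa [Matrix.toLin'_apply] at this
  · rintro ⟨v, hv, hv'⟩
    refine Module.End.hasEigenvalue_of_hasEigenvector (x := v) ?_
    exact ⟨Module.End.mem_eigenspace_iff.2 (by rw [Matrix.toLin'_apply]; exact hv'), hv⟩

theorem spec_sub (h : Design inc l) {θ : ℝ} (hθ : θ ∈ spectrum ℝ ((sg inc).adjMatrix ℝ)) :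
    θ = 0 ∨ θ = -l ∨ θ = l - 1 ∨ θ = Fintype.card P - 1 + l := by
  rw [mem_spectrum_iff] at hθ
  obtain ⟨v, hv, hA⟩ := hθ
  set s : ℝ := ∑ q, v (.inl q) with hs
  have e1 : ∀ p, (s - v (.inl p)) + ∑ b, (if inc b p then v (.inr b) else 0) =
      θ * v (.inl p) := by
    intro p
    have := congrFun hA (.inl p)
    rw [mulVec_inl] at this
    exact this
  have e2 : ∀ b, ∑ q, (if inc b q then v (.inl q) else 0) = θ * v (.inr b) := by
    intro b
    have := congrFun hA (.inr b)
    rw [mulVec_inr] at this
    exact this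
  have e3 : ∀ p, (θ + l) * s = (θ + l) * ((θ + 1 - l) * v (.inl p)) := by
    intro p
    have h1 := sum_sum h (fun q => v (.inl q)) p
    simp_rw [e2] at h1
    have h2 : ∑ b, (if inc b p then θ * v (.inr b) else 0) =
        θ * ∑ b, (if inc b p then v (.inr b) else 0) := by
      rw [Finset.mul_sum]
      refine Finset.sum_congr rfl fun b _ => ?_
      by_cases hb : inc b p <;> simp [hb]
    rw [h2] at h1
    have h3 := e1 p
    have h4 : ∑ b, (if inc b p then v (.inr b) else 0) = θ * v (.inl p) - (s - v (.inl p)) := by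
      linarith
    rw [h4] at h1
    linear_combination -h1
  by_cases h1 : θ + l = 0
  · right; left; linarith
  have e4 : ∀ p, s = (θ + 1 - l) * v (.inl p) := fun p => mul_left_cancel₀ h1 (e3 p)
  by_cases h2 : θ + 1 - l = 0
  · right; right; left; linarith
  have e5 : (Fintype.card P : ℝ) * s = (θ + 1 - l) * s := by
    have : ∑ _p : P, s = ∑ p : P, (θ + 1 - l) * v (.inl p) := Finset.sum_congr rfl fun p _ => e4 p
    rw [Finset.sum_const, ← Finset.mul_sum, nsmul_eq_mul] at this
    exact this
  by_cases h3 : s = 0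
  · left
    by_contra hθ0
    apply hv
    have h4 : ∀ p, v (.inl p) = 0 := by
      intro p
      have := e4 p
      rw [h3] at this
      rcases mul_eq_zero.1 this.symm with h | h
      · exact absurd h h2
      · exact h
    funext x
    rcases x with p | b
    · exact h4 p
    · have := e2 b
      simp only [h4, ite_self, Finset.sum_const_zero] at this
      rcases mul_eq_zero.1 this.symm with h | h
      · exact absurd h hθ0
      · exact h
  · right; right; right
    have := mul_right_cancel₀ h3 e5
    linarith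

theorem mk_eig (h : Design inc l) {θ : ℝ} (hθ : θ ≠ 0) (x : P → ℝ) (hx : x ≠ 0)
    (he : ∀ p, (θ + l) * ∑ q, x q = (θ + l) * ((θ + 1 - l) * x p)) :
    θ ∈ spectrum ℝ ((sg inc).adjMatrix ℝ) := by
  rw [mem_spectrum_iff]
  refine ⟨Sum.elim x (fun b => (∑ q, (if inc b q then x q else 0)) / θ), ?_, ?_⟩
  · intro h0
    apply hx
    funext p
    exact congrFun h0 (.inl p)
  · funext y
    rcases y with p | b
    · rw [mulVec_inl]
      simp only [Sum.elim_inl, Sum.elim_inr, Pi.smul_apply, smul_eq_mul]
      have h1 : ∑ b, (if inc b p then (∑ q, (if inc b q then x q else 0)) / θ else 0) =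
          (∑ b, (if inc b p then ∑ q, (if inc b q then x q else 0) else 0)) / θ := by
        rw [Finset.sum_div]
        refine Finset.sum_congr rfl fun b _ => ?_
        by_cases hb : inc b p <;> simp [hb]
      rw [h1, sum_sum h]
      field_simp
      linear_combination he p
    · rw [mulVec_inr]
      simp only [Sum.elim_inl, Sum.elim_inr, Pi.smul_apply, smul_eq_mul]
      field_simp

theorem spectrum_sg (h : Design inc l) (hl : 2 ≤ l) (hP : 2 ≤ Fintype.card P)
    (h0 : ∃ b c, b ≠ c ∧ ∀ p, inc b p ↔ inc c p) :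
    spectrum ℝ ((sg inc).adjMatrix ℝ) =
      {0, -(l : ℝ), (l : ℝ) - 1, (Fintype.card P : ℝ) - 1 + l} := by
  have hl' : (2 : ℝ) ≤ l := by exact_mod_cast hl
  have hP' : (2 : ℝ) ≤ Fintype.card P := by exact_mod_cast hP
  obtain ⟨p, q, hpq⟩ := Fintype.exists_pair_of_one_lt_card (α := P) (by omega)
  ext θ
  simp only [Set.mem_insert_iff, Set.mem_singleton_iff]
  constructor
  · intro hθ
    exact spec_sub h hθ
  · have key : ∀ θ : ℝ, (θ = -l ∨ θ = l - 1) → θ ∈ spectrum ℝ ((sg inc).adjMatrix ℝ) := by
      intro θ hθ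
      refine mk_eig h (by rcases hθ with h | h <;> rw [h] <;> intro h' <;> linarith)
        (fun r => (if r = p then 1 else 0) - (if r = q then 1 else 0)) ?_ ?_
      · intro h0
        have := congrFun h0 p
        simp [hpq] at this
      · intro r
        rw [Finset.sum_sub_distrib]
        simp only [Finset.sum_ite_eq', Finset.mem_univ, if_true, sub_self, mul_zero]
        rcases hθ with h | h <;> rw [h] <;> ring
    rintro (rfl | hθ | hθ | rfl)
    · obtain ⟨b, c, hbc, hinc⟩ := h0
      rw [mem_spectrum_iff]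
      refine ⟨Sum.elim 0 (fun a => (if a = b then 1 else 0) - (if a = c then 1 else 0)), ?_, ?_⟩
      · intro h1
        have := congrFun h1 (.inr b)
        simp [hbc] at this
      · funext y
        rcases y with r | a
        · rw [mulVec_inl]
          simp only [Sum.elim_inl, Sum.elim_inr, Pi.zero_apply, Finset.sum_const_zero, sub_self,
            zero_add, zero_smul, Pi.smul_apply]
          have h2 : ∀ a, (if inc a r then ((if a = b then (1 : ℝ) else 0) -
              (if a = c then 1 else 0)) else 0) =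
              (if a = b then (if inc b r then 1 else 0) else 0) -
                (if a = c then (if inc c r then 1 else 0) else 0) := by
            intro a
            by_cases h3 : a = b
            · subst h3
              by_cases h4 : inc a r <;> simp [h4, hbc]
            · by_cases h5 : a = c
              · subst h5
                by_cases h4 : inc a r <;> simp [h4, h3]
              · simp [h3, h5]
          simp_rw [h2]
          rw [Finset.sum_sub_distrib]
          simp [hinc r]
        · rw [mulVec_inr]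
          simp
    · exact key θ (Or.inl hθ)
    · exact key θ (Or.inr hθ)
    · refine mk_eig h (by intro h'; linarith) (fun _ => 1) ?_ ?_
      · intro h0
        have := congrFun h0 p
        simp at this
      · intro r
        simp only [Finset.sum_const, nsmul_eq_mul, Finset.card_univ, mul_one]
        ring

theorem ncard_four (hl : 2 ≤ l) (N : ℕ) (hN : 2 ≤ N) :
    ({0, -(l : ℝ), (l : ℝ) - 1, (N : ℝ) - 1 + l} : Set ℝ).ncard = 4 := by
  have hl' : (2 : ℝ) ≤ l := by exact_mod_cast hl
  have hN' : (2 : ℝ) ≤ N := by exact_mod_cast hN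
  rw [Set.ncard_insert_of_notMem, Set.ncard_insert_of_notMem, Set.ncard_pair]
  · intro h; linarith
  · simp only [Set.mem_insert_iff, Set.mem_singleton_iff, not_or]
    constructor <;> intro h <;> linarith
  · simp only [Set.mem_insert_iff, Set.mem_singleton_iff, not_or]
    refine ⟨?_, ?_, ?_⟩ <;> intro h <;> linarith

end Spectrum

section Eigs

open Classical in
/-- The set of the eigenvalues of the adjacency matrix of a finite graph. -/
noncomputable def eigs {V : Type*} [Fintype V] (G : SimpleGraph V) : Set ℝ :=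
  spectrum ℝ (G.adjMatrix ℝ)

theorem mem_eigs {V : Type*} [Fintype V] (G : SimpleGraph V) [inst : DecidableRel G.Adj] (θ : ℝ) :
    θ ∈ eigs G ↔ ∃ v : V → ℝ, v ≠ 0 ∧ (G.adjMatrix ℝ).mulVec v = θ • v := by
  have h : inst = fun a b => Classical.propDecidable (G.Adj a b) := Subsingleton.elim _ _
  subst h
  classical
  exact mem_spectrum_iff _ θ

theorem eigs_eq {V : Type*} [Fintype V] [DecidableEq V] (G : SimpleGraph V) [DecidableRel G.Adj] :
    eigs G = spectrum ℝ (G.adjMatrix ℝ) := by
  ext θ
  rw [mem_eigs, mem_spectrum_iff]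

theorem eigs_sub_iso {V W : Type*} [Fintype V] [Fintype W] {G : SimpleGraph V}
    {H : SimpleGraph W} (φ : G ≃g H) : eigs H ⊆ eigs G := by
  classical
  intro θ hθ
  rw [mem_eigs] at hθ ⊢
  obtain ⟨v, hv, hA⟩ := hθ
  refine ⟨v ∘ φ, ?_, ?_⟩
  · intro h
    apply hv
    funext w
    obtain ⟨x, rfl⟩ := φ.surjective w
    exact congrFun h x
  · funext x
    have h1 := congrFun hA (φ x)
    rw [Matrix.mulVec, dotProduct] at h1 ⊢
    rw [Pi.smul_apply] at h1 ⊢
    rw [Function.comp_apply, ← h1]
    refine Fintype.sum_equiv φ.toEquiv _ _ fun y => ?_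
    rw [SimpleGraph.adjMatrix_apply, SimpleGraph.adjMatrix_apply]
    have : H.Adj (φ x) (φ.toEquiv y) ↔ G.Adj x y := φ.map_adj_iff
    simp only [this]
    rfl

theorem eigs_iso {V W : Type*} [Fintype V] [Fintype W] {G : SimpleGraph V}
    {H : SimpleGraph W} (φ : G ≃g H) : eigs G = eigs H :=
  Set.Subset.antisymm (eigs_sub_iso φ.symm) (eigs_sub_iso φ)

theorem eigs_sg {P B : Type*} [Fintype P] [Fintype B] [DecidableEq P]
    {inc : B → P → Prop} [∀ b p, Decidable (inc b p)] {l : ℕ}
    (h : Design inc l) (hl : 2 ≤ l) (hP : 2 ≤ Fintype.card P)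
    (h0 : ∃ b c, b ≠ c ∧ ∀ p, inc b p ↔ inc c p) :
    eigs (sg inc) = {0, -(l : ℝ), (l : ℝ) - 1, (Fintype.card P : ℝ) - 1 + l} := by
  classical
  rw [eigs_eq, spectrum_sg h hl hP h0]

/-- A graph is split if it is isomorphic to a split graph. -/
theorem IsSplit.of_iso {V W : Type*} {G : SimpleGraph V} {H : SimpleGraph W} (φ : G ≃g H)
    (h : IsSplit G) : IsSplit H := by
  obtain ⟨K, h1, h2⟩ := h
  refine ⟨{w | φ.symm w ∈ K}, ?_, ?_⟩
  · intro x hx y hy hxy
    exact φ.symm.map_adj_iff.1 (h1 hx hy fun h => hxy (φ.symm.injective h))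
  · intro x hx y hy hxy h
    exact h2 hx hy (fun h => hxy (φ.symm.injective h)) (φ.symm.map_adj_iff.2 h)

end Eigs

end Pool.Agent.U17.Eig
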